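import Pool.Agent.Helper11.PV.St

/-!
# Project PV (MP_e12aa9_pr), module ENL: lower bound for the entropy
-/

set_option autoImplicit false

namespace Pool.Agent.Helper84.PV

open Finset Pool.Agent.Helper82.CN Pool.Agent.Helper11.PV

/-- the pointwise inequality -/
theorem pointwise (x r : ℝ) (hr : 0 < r) :
    x ^ 2 * Real.log r + (2 * x ^ 2 - |x| * (2 * √r)) ≤ x ^ 2 * Real.log (x ^ 2) := by
  rcases eq_or_ne x 0 with rfl | hx
  · simp
  have hax : 0 < |x| := abs_pos.2 hx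
  have hsr : 0 < √r := Real.sqrt_pos.2 hr
  have h1 := Real.one_sub_inv_le_log_of_pos (div_pos hax hsr)
  rw [Real.log_div hax.ne' hsr.ne', Real.log_sqrt hr.le, inv_div] at h1
  have h2 : Real.log (x ^ 2) = 2 * Real.log |x| := by
    rw [← sq_abs, Real.log_pow]
    norm_num
  have h3 : |x| ^ 2 = x ^ 2 := sq_abs x
  rw [h2, ← h3]
  have h4 : |x| ^ 2 * (1 - √r / |x|) ≤ |x| ^ 2 * (Real.log |x| - Real.log r / 2) :=
    mul_le_mul_of_nonneg_left h1 (by positivity)
  have h5 : |x| ^ 2 * (1 - √r / |x|) = |x| ^ 2 - |x| * √r := by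
    field_simp
  rw [h5] at h4
  nlinarith

theorem tENL : Pool.Agent.Helper11.PV.StENL := by
  intro p N g s hp0 hp1 hs
  set ν := EE p (fun ω => g ω ^ 2) with hν
  set c := EE p (fun ω => |g ω|) with hc
  have hν0 : 0 ≤ ν := EE_nonneg hp0.le hp1.le fun ω => sq_nonneg _
  have hc0 : 0 ≤ c := EE_nonneg hp0.le hp1.le fun ω => abs_nonneg _
  have key : ∀ r : ℝ, 0 < r → ν * Real.log r + (2 * ν - c * (2 * √r)) ≤
      EE p (fun ω => g ω ^ 2 * Real.log (g ω ^ 2)) := by
    intro r hr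
    have h1 := EE_mono hp0.le hp1.le (F := fun ω => g ω ^ 2 * Real.log r +
      (2 * g ω ^ 2 - |g ω| * (2 * √r))) (G := fun ω => g ω ^ 2 * Real.log (g ω ^ 2))
      fun ω => pointwise (g ω) r hr
    rw [EE_add, EE_sub, EE_mul_right, EE_mul_right, EE_mul_left] at h1
    exact h1
  rcases hν0.eq_or_lt with h0 | hpos
  · have h1 := EE_cs hp0.le hp1.le (fun ω => |g ω|) (fun _ : Fin N → Bool => (1 : ℝ))
    simp only [mul_one, sq_abs] at h1
    rw [← hν, ← h0, zero_mul] at h1
    have hc1 : c = 0 := by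
      have h2 : c ^ 2 ≤ 0 := h1
      nlinarith
    have h3 := key 1 one_pos
    rw [← h0, hc1] at h3
    rw [← h0, hc1]
    simp only [zero_mul, mul_zero, add_zero, sub_zero] at h3
    linarith
  · have h1 := key (ν * s) (by positivity)
    rw [Real.log_mul hpos.ne' hs.ne', Real.sqrt_mul hν0] at h1
    have h2 : 2 * (√ν * (√s * c)) ≤ ν + s * c ^ 2 := by
      have h3 := sq_nonneg (√ν - √s * c)
      have h4 : √ν ^ 2 = ν := Real.sq_sqrt hν0
      have h5 : √s ^ 2 = s := Real.sq_sqrt hs.le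
      nlinarith
    nlinarith

end Pool.Agent.Helper84.PV
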