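import Pool.Agent.Helper61.PV.St

/-!
# Project PV (MP_d466de), module Car: cardinalities of boxes
-/

set_option autoImplicit false

namespace Pool.Agent.Helper84.PV

open Pool.Agent.Helper61.PV Finset

theorem hCar : StCar := by
  intro d A h
  constructor
  · unfold Bx
    rw [Fintype.card_piFinset]
    apply Finset.prod_congr rfl
    intro i _
    rw [Int.card_Ico]
    simp
  · intro R h₀ hh0 hh
    have hi0 : ∀ i, (0 : ℝ) < h i := fun i => lt_of_lt_of_le hh0 (hh i)
    have hR0 : (0 : ℝ) ≤ R := Nat.cast_nonneg R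
    constructor
    · have h1 : ∀ i ∈ (Finset.univ : Finset (Fin (d + 1))),
          ((h i + 2 * R : ℕ) : ℝ) ≤ Real.exp (2 * R / h₀) * (h i : ℝ) := by
        intro i _
        push_cast
        have h2 : 2 * (R : ℝ) / h₀ + 1 ≤ Real.exp (2 * R / h₀) := Real.add_one_le_exp _
        have h3 : (2 * (R : ℝ) / h₀ + 1) * (h i : ℝ) ≤ Real.exp (2 * R / h₀) * (h i : ℝ) :=
          mul_le_mul_of_nonneg_right h2 (hi0 i).le
        have h4 : 2 * (R : ℝ) ≤ 2 * (R : ℝ) / h₀ * (h i : ℝ) := by
          rw [div_mul_eq_mul_div, le_div_iff₀ hh0]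
          exact mul_le_mul_of_nonneg_left (hh i) (by linarith)
        nlinarith
      refine (Finset.prod_le_prod (fun i _ => Nat.cast_nonneg _) h1).trans (le_of_eq ?_)
      rw [Finset.prod_mul_distrib, Finset.prod_const, Finset.card_univ, Fintype.card_fin,
        ← Real.exp_nat_mul]
      congr 2
      push_cast
      ring
    · intro hd
      have hd0 : (0 : ℝ) ≤ d := Nat.cast_nonneg d
      have hRd : 2 * (R : ℝ) ≤ h₀ := by nlinarith
      have hx1 : 2 * (R : ℝ) / h₀ ≤ 1 := by rw [div_le_one hh0]; exact hRd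
      have h1 : ∀ i ∈ (Finset.univ : Finset (Fin (d + 1))),
          (1 - 2 * (R : ℝ) / h₀) * (h i : ℝ) ≤ ((h i - 2 * R : ℕ) : ℝ) := by
        intro i _
        have h2 : 2 * R ≤ h i := by
          have : 2 * (R : ℝ) ≤ h i := hRd.trans (hh i)
          exact_mod_cast this
        rw [Nat.cast_sub h2]
        push_cast
        have h4 : 2 * (R : ℝ) ≤ 2 * (R : ℝ) / h₀ * (h i : ℝ) := by
          rw [div_mul_eq_mul_div, le_div_iff₀ hh0]
          exact mul_le_mul_of_nonneg_left (hh i) (by linarith)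
        nlinarith
      refine le_trans ?_ (Finset.prod_le_prod
        (fun i _ => mul_nonneg (by linarith) (hi0 i).le) h1)
      rw [Finset.prod_mul_distrib, Finset.prod_const, Finset.card_univ, Fintype.card_fin]
      apply mul_le_mul_of_nonneg_right _ (Finset.prod_nonneg fun i _ => (hi0 i).le)
      have h5 := one_add_mul_le_pow (a := -(2 * (R : ℝ) / h₀)) (by linarith) (d + 1)
      have h6 : 1 - 2 * (R : ℝ) * (d + 1) / h₀ = 1 + ((d + 1 : ℕ) : ℝ) * -(2 * (R : ℝ) / h₀) := by
        push_cast
        ring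
      rw [h6, sub_eq_add_neg]
      exact h5

end Pool.Agent.Helper84.PV
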