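import Pool.Agent.Helper61.PV.St

/-!
# Project PV (MP_d466de), module Pri: primes have density zero in all long intervals
-/

set_option autoImplicit false

namespace Pool.Agent.Helper84.PV

open Pool.Agent.Helper61.PV Finset

/-- the number of primes in an interval, compared with the integers coprime to a product of primes -/
theorem Pri_count (S : Finset ℕ) (hS : ∀ p ∈ S, p.Prime) (k N : ℕ) :
    #((Ico k (k + N)).filter Nat.Prime) ≤
      #S + Nat.totient (∏ p ∈ S, p) * (N / (∏ p ∈ S, p) + 1) := by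
  set P := ∏ p ∈ S, p with hP
  have hP0 : 0 < P := Finset.prod_pos (fun p hp => (hS p hp).pos)
  have h1 : (Ico k (k + N)).filter Nat.Prime ⊆
      S ∪ (Ico k (k + N)).filter (fun n => P.Coprime n) := by
    intro n hn
    rw [Finset.mem_filter] at hn
    rw [Finset.mem_union, Finset.mem_filter]
    by_cases hnS : n ∈ S
    · exact Or.inl hnS
    · right
      refine ⟨hn.1, ?_⟩
      apply Nat.Coprime.prod_left
      intro p hp
      exact (Nat.coprime_primes (hS p hp) hn.2).2 (fun h => hnS (h ▸ hp))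
  refine (Finset.card_le_card h1).trans ((Finset.card_union_le _ _).trans ?_)
  exact Nat.add_le_add_left (Nat.Ico_filter_coprime_le k N hP0.ne') _

theorem hPri : StPri := by
  intro ε hε
  obtain ⟨u, hu⟩ : ∃ u : Finset Nat.Primes, Real.log (4 / ε) < ∑ p ∈ u, 1 / ((p : ℕ) : ℝ) := by
    by_contra hcon
    push Not at hcon
    exact Nat.Primes.not_summable_one_div
      (summable_of_sum_le (fun p => by positivity) hcon)
  set S : Finset ℕ := u.map (Function.Embedding.subtype _) with hS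
  have hSp : ∀ p ∈ S, p.Prime := by
    intro p hp
    rw [hS, Finset.mem_map] at hp
    obtain ⟨q, -, rfl⟩ := hp
    exact q.2
  have hsum : ∑ p ∈ S, 1 / (p : ℝ) = ∑ p ∈ u, 1 / ((p : ℕ) : ℝ) := by
    rw [hS, Finset.sum_map]
    rfl
  set P := ∏ p ∈ S, p with hP
  have hP0 : 0 < P := Finset.prod_pos (fun p hp => (hSp p hp).pos)
  have htot : (Nat.totient P : ℝ) = P * ∏ p ∈ S, (1 - (p : ℝ)⁻¹) := by
    have h := Nat.totient_eq_mul_prod_factors P
    rw [hP, Nat.primeFactors_prod hSp, ← hP] at h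
    have h2 := congrArg (fun x : ℚ => (x : ℝ)) h
    push_cast at h2
    exact h2
  have hprod : ∏ p ∈ S, (1 - (p : ℝ)⁻¹) ≤ ε / 4 := by
    have h1 : ∏ p ∈ S, (1 - (p : ℝ)⁻¹) ≤ ∏ p ∈ S, Real.exp (-(1 / (p : ℝ))) := by
      apply Finset.prod_le_prod
      · intro p hp
        have h2 : (1 : ℝ) ≤ p := by exact_mod_cast (hSp p hp).one_le
        have h3 : (p : ℝ)⁻¹ ≤ 1 := inv_le_one_of_one_le₀ h2
        linarith
      · intro p _
        have := Real.one_sub_le_exp_neg (1 / (p : ℝ))
        rw [one_div] at this ⊢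
        exact this
    refine h1.trans ?_
    rw [← Real.exp_sum, Finset.sum_neg_distrib, hsum]
    have h4 : Real.exp (-∑ p ∈ u, 1 / ((p : ℕ) : ℝ)) ≤ Real.exp (-Real.log (4 / ε)) :=
      Real.exp_le_exp.2 (by linarith)
    refine h4.trans (le_of_eq ?_)
    rw [Real.exp_neg, Real.exp_log (by positivity), inv_div]
  refine ⟨⌈2 * ((#S : ℝ) + P) / ε⌉₊, fun N hN y => ?_⟩
  have hN' : 2 * ((#S : ℝ) + P) / ε ≤ N := (Nat.le_ceil _).trans (by exact_mod_cast hN)
  rw [div_le_iff₀ hε] at hN'
  -- pass to natural numbers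
  have h1 : #((Ico y (y + N)).filter (fun n => n.toNat.Prime)) ≤
      #((Ico y.toNat (y.toNat + N)).filter Nat.Prime) := by
    refine Finset.card_le_card_of_injOn Int.toNat ?_ ?_
    · intro n hn
      rw [Finset.mem_coe, Finset.mem_filter, Finset.mem_Ico] at hn
      rw [Finset.mem_coe, Finset.mem_filter, Finset.mem_Ico]
      have h2 := hn.2.two_le
      refine ⟨?_, hn.2⟩
      omega
    · intro n hn m hm hnm
      rw [Finset.mem_coe, Finset.mem_filter] at hn hm
      have h2 := hn.2.two_le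
      have h3 := hm.2.two_le
      omega
  have h2 := Pri_count S hSp y.toNat N
  rw [← hP] at h2
  have h3 : (#((Ico y (y + N)).filter (fun n => n.toNat.Prime)) : ℝ) ≤
      #S + (Nat.totient P : ℝ) * (((N / P : ℕ) : ℝ) + 1) := by
    exact_mod_cast h1.trans h2
  refine h3.trans ?_
  have h4 : ((N / P : ℕ) : ℝ) ≤ (N : ℝ) / P := Nat.cast_div_le
  have hPr : (0 : ℝ) < P := by exact_mod_cast hP0
  have hN0 : (0 : ℝ) ≤ N := Nat.cast_nonneg N
  have h5 : (Nat.totient P : ℝ) ≤ P := by exact_mod_cast Nat.totient_le P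
  have h6 : (Nat.totient P : ℝ) * ((N / P : ℕ) : ℝ) ≤ ε / 4 * N := by
    calc (Nat.totient P : ℝ) * ((N / P : ℕ) : ℝ) ≤ (Nat.totient P : ℝ) * ((N : ℝ) / P) :=
          mul_le_mul_of_nonneg_left h4 (Nat.cast_nonneg _)
      _ = (∏ p ∈ S, (1 - (p : ℝ)⁻¹)) * N := by
          rw [htot]
          field_simp
      _ ≤ ε / 4 * N := mul_le_mul_of_nonneg_right hprod hN0
  have h7 : (Nat.totient P : ℝ) * (((N / P : ℕ) : ℝ) + 1) =
      (Nat.totient P : ℝ) * ((N / P : ℕ) : ℝ) + Nat.totient P := by ring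
  rw [h7]
  have h8 : 0 ≤ ε * N := by positivity
  linarith

end Pool.Agent.Helper84.PV
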